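import Pool.Agent.Helper78.LM.Goals
import Pool.Agent.Helper83.CookLevin

/-!
# The tableau of a Turing machine as a sequence of local functions
-/

namespace Pool.Agent.Helper60.LM

open Pool.Agent.Helper81.CC Pool.Agent.Helper51.ZP Pool.Agent.Helper83.CL Turing Computability
open Pool.Agent.Helper78.LM

/-- a polynomial-time machine as a coded stack machine -/
theorem machine (f : List Bool × List Bool → Bool) (m : Polynomial ℕ)
    (h0 : PolyTimeComputable (fun z : List Bool × List Bool => pairEnc z.1 z.2) encodeBool f) :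
    ∃ (M : SM) (nQ nK nG q0 k0 k1 cf ct acc : ℕ) (T : Polynomial ℕ), M.Bounded nQ nK nG ∧
      q0 < nQ ∧ k0 < nK ∧ k1 < nK ∧ cf ≤ nG ∧ ct ≤ nG ∧ acc ≤ nG ∧ ∀ x r : List Bool,
        r.length = m.eval x.length →
        ((M.step^[T.eval x.length] (SM.initC q0 k0 ((pairEnc x r).map (SM.bc cf ct)))).2 k1 0 = acc ↔
          f (x, r) = true) := by
  obtain ⟨h⟩ := h0
  set tm := h.tm with htm
  set gt : tm.Γ tm.k₁ := h.outputAlphabet.invFun true with hgt
  obtain ⟨ql, kl, gl, hcl, hmain, hin, hextra⟩ := closed_exists tm ⟨tm.k₁, gt⟩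
  obtain ⟨D, hD⟩ := exists_depth tm
  -- parameters of the tableau
  set M : SM := codeM tm.m tm.k₀ ql kl gl with hM
  set q0 := qc ql (some (tm.m tm.main), tm.initialState) with hq0
  set cf := cellc gl tm.k₀ (some (h.inputAlphabet.invFun false)) with hcf
  set ct := cellc gl tm.k₀ (some (h.inputAlphabet.invFun true)) with hct
  set acc := cellc gl tm.k₁ (some gt) with hacc
  have hbc : ∀ b, SM.bc cf ct b = cellc gl tm.k₀ (some (h.inputAlphabet.invFun b)) := by
    intro b; cases b <;> rfl
  have hbcle : ∀ b, SM.bc cf ct b ≤ gl.length := by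
    intro b
    rw [hbc]
    exact cellc_le _ (fun g _ => hin g)
  refine ⟨M, ql.length, kl.length, gl.length, q0, kc kl tm.k₀, kc kl tm.k₁, cf, ct, acc,
    Polynomial.C D * h.time.comp (2 * Polynomial.X + 1 + m), codeM_bounded hcl, qc_lt hmain,
    kc_lt (hcl.kl _), kc_lt (hcl.kl _), hbcle false, hbcle true, cellc_le _ (by
      intro g hg
      rw [Option.mem_def, Option.some.injEq] at hg
      rw [← hg]; exact hextra), fun x y hy => ?_⟩
  have hTe : (Polynomial.C D * h.time.comp (2 * Polynomial.X + 1 + m)).eval x.length =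
      D * h.time.eval (2 * x.length + 1 + m.eval x.length) := by
    simp [Polynomial.eval_comp]
  rw [hTe]
  set T := D * h.time.eval (2 * x.length + 1 + m.eval x.length) with hT
  set c0 := initList tm (List.map h.inputAlphabet.invFun (pairEnc x y)) with hc0
  set C0 := SM.initC q0 (kc kl tm.k₀) ((pairEnc x y).map (SM.bc cf ct)) with hC0
  have hrel : Rel ql kl gl (conv tm.m c0) C0 := by
    refine ⟨hmain, ?_, rfl, ?_⟩
    · intro k g hg
      by_cases hk : k = tm.k₀
      · subst hk
        exact hin g
      · have : c0.stk k = [] := initList_stk' tm _ hk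
        have hg' : g ∈ c0.stk k := hg
        rw [this] at hg'
        simp at hg'
    · intro k i
      by_cases hk : k = tm.k₀
      · subst hk
        have h1 : (conv tm.m c0).2 tm.k₀ =
          List.map h.inputAlphabet.invFun (pairEnc x y) := initList_stk tm _
        rw [h1]
        show (if kc kl tm.k₀ = kc kl tm.k₀ then _ else _) = _
        rw [if_pos rfl]
        exact getD_map_cellc gl tm.k₀ _ _ hbc _ i
      · have h1 : (conv tm.m c0).2 k = [] := initList_stk' tm _ hk
        rw [h1]
        show (if kc kl k = kc kl tm.k₀ then _ else _) = _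
        rw [if_neg (fun h' => hk (kc_inj hcl.kl h'))]
        rfl
  -- the run of the machine
  obtain ⟨⟨s, hs⟩, hsle⟩ := h.outputsFun (x, y)
  have hs' : (flip bind (TM2.step tm.m))^[s] (some c0) =
      some (haltList tm [h.outputAlphabet.invFun (f (x, y))]) := by
    rw [hc0]
    exact hs
  obtain ⟨d, hd, hd'⟩ := micro_run tm.m hD s _ _ hs'
  have hdT : d ≤ T := by
    refine hd.trans (Nat.mul_le_mul_left D (hsle.trans (poly_mono _ ?_)))
    rw [length_pairEnc]
    simp only
    omega
  have hfinal : (micro tm.m)^[T] (conv tm.m c0) =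
      conv tm.m (haltList tm [h.outputAlphabet.invFun (f (x, y))]) := by
    rw [show T = (T - d) + d by omega, Function.iterate_add_apply, hd']
    exact micro_halt tm.m _ rfl _
  have hrelT := hrel.iter (k0 := tm.k₀) hcl T
  rw [hfinal] at hrelT
  have hcell := hrelT.cell tm.k₁ 0
  have hstk : (conv tm.m (haltList tm [h.outputAlphabet.invFun (f (x, y))])).2 tm.k₁ =
      [h.outputAlphabet.invFun (f (x, y))] := haltList_stk tm _
  rw [hstk] at hcell
  rw [hM, hcell]
  constructor
  · intro hh
    have h1 : cellc gl tm.k₁ (some gt) =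
        cellc gl tm.k₁ (some (h.outputAlphabet.invFun (f (x, y)))) := hh.symm
    have h2 := cellc_inj gl tm.k₁ hextra h1
    exact (h.outputAlphabet.symm.injective h2).symm
  · intro hVt
    rw [hVt]
    rfl

/-! ### Numbering of the bits -/

/-- the number of the bit of the cell `i` of the stack `k` at time `t` for the symbol `s` -/
def idx (G nK N mm t k i s : ℕ) : ℕ := mm + 1 + (((t * (nK + 1) + k) * (N + 1) + i) * G + s)

/-- the symbol -/
def eS (G mm j : ℕ) : ℕ := (j - (mm + 1)) % G

/-- the cell -/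
def eI (G N mm j : ℕ) : ℕ := (j - (mm + 1)) / G % (N + 1)

/-- the stack -/
def eK (G nK N mm j : ℕ) : ℕ := (j - (mm + 1)) / G / (N + 1) % (nK + 1)

/-- the time -/
def eT (G nK N mm j : ℕ) : ℕ := (j - (mm + 1)) / G / (N + 1) / (nK + 1)

theorem idx_e {G nK N mm j : ℕ} (hj : mm + 1 ≤ j) :
    idx G nK N mm (eT G nK N mm j) (eK G nK N mm j) (eI G N mm j) (eS G mm j) = j := by
  unfold idx eT eK eI eS
  set u := j - (mm + 1) with hu
  have h1 := Nat.div_add_mod u G
  have h2 := Nat.div_add_mod (u / G) (N + 1)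
  have h3 := Nat.div_add_mod (u / G / (N + 1)) (nK + 1)
  have e1 : u / G / (N + 1) / (nK + 1) * (nK + 1) + u / G / (N + 1) % (nK + 1) =
    u / G / (N + 1) := by rw [Nat.mul_comm]; exact h3
  rw [e1]
  have e2 : u / G / (N + 1) * (N + 1) + u / G % (N + 1) = u / G := by
    rw [Nat.mul_comm]; exact h2
  rw [e2]
  have e3 : u / G * G + u % G = u := by rw [Nat.mul_comm]; exact h1
  rw [e3]
  omega

theorem div_aux {G a s : ℕ} (hs : s < G) : (a * G + s) / G = a := by
  rw [Nat.add_comm, Nat.add_mul_div_right _ _ (by omega), Nat.div_eq_of_lt hs, Nat.zero_add]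

theorem mod_aux {G a s : ℕ} (hs : s < G) : (a * G + s) % G = s := by
  rw [Nat.add_comm, Nat.add_mul_mod_self_right, Nat.mod_eq_of_lt hs]

theorem eS_idx {G nK N mm t k i s : ℕ} (hs : s < G) :
    eS G mm (idx G nK N mm t k i s) = s := by
  unfold eS idx
  rw [Nat.add_sub_cancel_left, mod_aux hs]

theorem eI_idx {G nK N mm t k i s : ℕ} (hs : s < G) (hi : i ≤ N) :
    eI G N mm (idx G nK N mm t k i s) = i := by
  unfold eI idx
  rw [Nat.add_sub_cancel_left, div_aux hs, mod_aux (by omega)]

theorem eK_idx {G nK N mm t k i s : ℕ} (hs : s < G) (hi : i ≤ N) (hk : k ≤ nK) :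
    eK G nK N mm (idx G nK N mm t k i s) = k := by
  unfold eK idx
  rw [Nat.add_sub_cancel_left, div_aux hs, div_aux (by omega), mod_aux (by omega)]

theorem eT_idx {G nK N mm t k i s : ℕ} (hs : s < G) (hi : i ≤ N) (hk : k ≤ nK) :
    eT G nK N mm (idx G nK N mm t k i s) = t := by
  unfold eT idx
  rw [Nat.add_sub_cancel_left, div_aux hs, div_aux (by omega), div_aux (by omega)]

theorem idx_lt {G nK N mm t t' k i s : ℕ} (hs : s < G) (hi : i ≤ N) (hk : k ≤ nK)
    (ht : t < t') : idx G nK N mm t k i s < mm + 1 + t' * (nK + 1) * (N + 1) * G := by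
  unfold idx
  have h1 : t * (nK + 1) + k + 1 ≤ t' * (nK + 1) := by nlinarith
  have h2 : (t * (nK + 1) + k) * (N + 1) + i + 1 ≤ t' * (nK + 1) * (N + 1) := by nlinarith
  have h3 : ((t * (nK + 1) + k) * (N + 1) + i) * G + s + 1 ≤ t' * (nK + 1) * (N + 1) * G := by
    nlinarith
  omega

theorem idx_lt_idx {G nK N mm t t' k i s k' i' s' : ℕ} (hs : s < G) (hi : i ≤ N) (hk : k ≤ nK)
    (ht : t < t') : idx G nK N mm t k i s < idx G nK N mm t' k' i' s' := by
  refine (idx_lt hs hi hk ht).trans_le ?_
  unfold idx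
  have : t' * (nK + 1) * (N + 1) * G ≤ ((t' * (nK + 1) + k') * (N + 1) + i') * G + s' := by
    refine le_trans ?_ (Nat.le_add_right _ _)
    refine Nat.mul_le_mul_right _ ?_
    refine le_trans ?_ (Nat.le_add_right _ _)
    exact Nat.mul_le_mul_right _ (Nat.le_add_right _ _)
  omega

theorem eT_lt {G nK N mm j tt : ℕ} (hj : mm + 1 ≤ j)
    (hj' : j < mm + 1 + (tt + 1) * (nK + 1) * (N + 1) * G) : eT G nK N mm j ≤ tt := by
  unfold eT
  have h : j - (mm + 1) < (tt + 1) * (nK + 1) * (N + 1) * G := by omega
  have h1 : (j - (mm + 1)) / G < (tt + 1) * (nK + 1) * (N + 1) :=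
    Nat.div_lt_of_lt_mul (by rw [Nat.mul_comm]; exact h)
  have h2 : (j - (mm + 1)) / G / (N + 1) < (tt + 1) * (nK + 1) :=
    Nat.div_lt_of_lt_mul (by rw [Nat.mul_comm]; exact h1)
  have h3 : (j - (mm + 1)) / G / (N + 1) / (nK + 1) < tt + 1 :=
    Nat.div_lt_of_lt_mul (by rw [Nat.mul_comm]; exact h2)
  omega

/-- the symbol given by the bits -/
def sym (G : ℕ) (L : List Bool) (k : ℕ) : ℕ :=
  ((List.range G).map fun s => if L.getD (k * G + s) false = true then s else 0).sum

theorem sum_aux (v : ℕ) : ∀ G, ((List.range G).map fun s => if s = v then s else 0).sum =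
    if v < G then v else 0 := by
  intro G
  induction G with
  | zero => simp
  | succ G ih =>
    rw [List.range_succ, List.map_append, List.sum_append, ih]
    simp only [List.map_cons, List.map_nil, List.sum_cons, List.sum_nil, Nat.add_zero]
    by_cases h1 : v < G
    · rw [if_pos h1, if_neg (by omega), if_pos (by omega)]; omega
    · rw [if_neg h1]
      by_cases h2 : G = v
      · rw [if_pos h2, if_pos (by omega)]; omega
      · rw [if_neg h2, if_neg (by omega)]

theorem sym_eq {G : ℕ} {L : List Bool} {k v : ℕ} (hv : v < G)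
    (h : ∀ s < G, L.getD (k * G + s) false = decide (s = v)) : sym G L k = v := by
  unfold sym
  have h1 : ((List.range G).map fun s => if L.getD (k * G + s) false = true then s else 0) =
      (List.range G).map fun s => if s = v then s else 0 := by
    apply List.map_congr_left
    intro s hs
    rw [h s (List.mem_range.1 hs)]
    by_cases h2 : s = v
    · simp [h2]
    · simp [h2]
  rw [h1, sum_aux, if_pos hv]

/-- the numbers of the arguments -/
def prA (G nK k0 k1 acc n mm tt S j i' : ℕ) : ℕ :=
  if j + 1 = S then idx G nK (2 * n + 1 + mm + tt) mm tt k1 0 acc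
  else if eT G nK (2 * n + 1 + mm + tt) mm j = 0 then
    (if eK G nK (2 * n + 1 + mm + tt) mm j = k0 ∧ 2 * n + 1 ≤ eI G (2 * n + 1 + mm + tt) mm j ∧
      eI G (2 * n + 1 + mm + tt) mm j < 2 * n + 1 + mm then
      eI G (2 * n + 1 + mm + tt) mm j - 2 * n else 0)
  else if i' < (nK + 1) * G then
    idx G nK (2 * n + 1 + mm + tt) mm (eT G nK (2 * n + 1 + mm + tt) mm j - 1) (i' / G) 0 (i' % G)
  else if i' = (nK + 1) * G then
    idx G nK (2 * n + 1 + mm + tt) mm (eT G nK (2 * n + 1 + mm + tt) mm j - 1)
      (eK G nK (2 * n + 1 + mm + tt) mm j) (eI G (2 * n + 1 + mm + tt) mm j - 1) (eS G mm j)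
  else if i' = (nK + 1) * G + 1 then
    idx G nK (2 * n + 1 + mm + tt) mm (eT G nK (2 * n + 1 + mm + tt) mm j - 1)
      (eK G nK (2 * n + 1 + mm + tt) mm j) (eI G (2 * n + 1 + mm + tt) mm j) (eS G mm j)
  else
    idx G nK (2 * n + 1 + mm + tt) mm (eT G nK (2 * n + 1 + mm + tt) mm j - 1)
      (eK G nK (2 * n + 1 + mm + tt) mm j)
      (min (eI G (2 * n + 1 + mm + tt) mm j + 1) (2 * n + 1 + mm + tt)) (eS G mm j)

/-- the cells at time `0` -/
def iniV (nK q0 k0 cf ct n mm : ℕ) (w : List Bool) (b : Bool) (k i : ℕ) : ℕ :=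
  if k = nK then (if i = 0 then q0 else 0)
  else if k = k0 then
    (if i < 2 * n + 1 then SM.bc cf ct (w.getD i false)
      else if i < 2 * n + 1 + mm then SM.bc cf ct b else 0)
  else 0

/-- the operation on the stack `k` -/
def opV (M : SM) (G nK : ℕ) (L : List Bool) (k : ℕ) : ℕ :=
  if k = M.act (sym G L nK) then M.op (sym G L nK) (sym G L (M.act (sym G L nK))) else 0

/-- the value of a bit at time `t + 1` -/
def nxV (M : SM) (G nK N : ℕ) (L : List Bool) (k i s : ℕ) : Bool :=
  if k = nK then
    decide (s = if i = 0 then M.nxt (sym G L nK) (sym G L (M.act (sym G L nK))) else 0)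
  else if i = N then decide (s = 0)
  else if opV M G nK L k = 0 then L.getD ((nK + 1) * G + 1) false
  else if opV M G nK L k = 1 then L.getD ((nK + 1) * G + 2) false
  else if i = 0 then decide (s = opV M G nK L k - 1)
  else L.getD ((nK + 1) * G) false

/-- the values of the bits -/
def vlA (M : SM) (G nK q0 k0 cf ct n mm tt S : ℕ) (w : List Bool) (j : ℕ) (L : List Bool) :
    Bool :=
  if j + 1 = S then L.getD 0 false
  else if eT G nK (2 * n + 1 + mm + tt) mm j = 0 then
    decide (eS G mm j = iniV nK q0 k0 cf ct n mm w (L.getD 0 false)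
      (eK G nK (2 * n + 1 + mm + tt) mm j) (eI G (2 * n + 1 + mm + tt) mm j))
  else nxV M G nK (2 * n + 1 + mm + tt) L (eK G nK (2 * n + 1 + mm + tt) mm j)
    (eI G (2 * n + 1 + mm + tt) mm j) (eS G mm j)

/-! ### Polynomial time -/

section poly

variable {α : Type} [ToData α]

theorem PT_idx (G nK : ℕ) {N mm t k i s : α → ℕ} (hN : PolyTime N) (hmm : PolyTime mm)
    (ht : PolyTime t) (hk : PolyTime k) (hi : PolyTime i) (hs : PolyTime s) :
    PolyTime (fun a => idx G nK (N a) (mm a) (t a) (k a) (i a) (s a)) := by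
  unfold idx
  fun_prop

theorem PT_eS (G : ℕ) {mm j : α → ℕ} (hmm : PolyTime mm) (hj : PolyTime j) :
    PolyTime (fun a => eS G (mm a) (j a)) := by
  unfold eS
  fun_prop

theorem PT_eI (G : ℕ) {N mm j : α → ℕ} (hN : PolyTime N) (hmm : PolyTime mm) (hj : PolyTime j) :
    PolyTime (fun a => eI G (N a) (mm a) (j a)) := by
  unfold eI
  fun_prop

theorem PT_eK (G nK : ℕ) {N mm j : α → ℕ} (hN : PolyTime N) (hmm : PolyTime mm)
    (hj : PolyTime j) : PolyTime (fun a => eK G nK (N a) (mm a) (j a)) := by
  unfold eK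
  fun_prop

theorem PT_eT (G nK : ℕ) {N mm j : α → ℕ} (hN : PolyTime N) (hmm : PolyTime mm)
    (hj : PolyTime j) : PolyTime (fun a => eT G nK (N a) (mm a) (j a)) := by
  unfold eT
  fun_prop

theorem PT_bc (cf ct : ℕ) {b : α → Bool} (hb : PolyTime b) :
    PolyTime (fun a => SM.bc cf ct (b a)) := by
  unfold SM.bc
  fun_prop

theorem PT_sym (G : ℕ) {L : α → List Bool} {k : α → ℕ} (hL : PolyTime L) (hk : PolyTime k) :
    PolyTime (fun a => sym G (L a) (k a)) := by
  unfold sym
  fun_prop

attribute [local fun_prop] PT_idx PT_eS PT_eI PT_eK PT_eT PT_bc PT_sym SM.PT_act SM.PT_nxt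
  SM.PT_op

theorem PT_prA (G nK k0 k1 acc : ℕ) {n mm tt S j i' : α → ℕ} (hn : PolyTime n)
    (hmm : PolyTime mm) (htt : PolyTime tt) (hS : PolyTime S) (hj : PolyTime j)
    (hi : PolyTime i') :
    PolyTime (fun a => prA G nK k0 k1 acc (n a) (mm a) (tt a) (S a) (j a) (i' a)) := by
  unfold prA
  fun_prop

theorem PT_iniV (nK q0 k0 cf ct : ℕ) {n mm k i : α → ℕ} {w : α → List Bool} {b : α → Bool}
    (hn : PolyTime n) (hmm : PolyTime mm) (hw : PolyTime w) (hb : PolyTime b) (hk : PolyTime k)
    (hi : PolyTime i) :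
    PolyTime (fun a => iniV nK q0 k0 cf ct (n a) (mm a) (w a) (b a) (k a) (i a)) := by
  unfold iniV
  fun_prop

theorem PT_opV (M : SM) (G nK : ℕ) {L : α → List Bool} {k : α → ℕ} (hL : PolyTime L)
    (hk : PolyTime k) : PolyTime (fun a => opV M G nK (L a) (k a)) := by
  unfold opV
  fun_prop

attribute [local fun_prop] PT_iniV PT_opV

theorem PT_nxV (M : SM) (G nK : ℕ) {N k i s : α → ℕ} {L : α → List Bool} (hN : PolyTime N)
    (hL : PolyTime L) (hk : PolyTime k) (hi : PolyTime i) (hs : PolyTime s) :
    PolyTime (fun a => nxV M G nK (N a) (L a) (k a) (i a) (s a)) := by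
  unfold nxV
  fun_prop

attribute [local fun_prop] PT_nxV

theorem PT_vlA (M : SM) (G nK q0 k0 cf ct : ℕ) {n mm tt S j : α → ℕ} {w L : α → List Bool}
    (hn : PolyTime n) (hmm : PolyTime mm) (htt : PolyTime tt) (hS : PolyTime S)
    (hw : PolyTime w) (hj : PolyTime j) (hL : PolyTime L) :
    PolyTime (fun a => vlA M G nK q0 k0 cf ct (n a) (mm a) (tt a) (S a) (w a) (j a) (L a)) := by
  unfold vlA
  fun_prop

end poly

/-! ### Correctness -/

/-- the value of a cell; the stack `nK` contains the state -/
def dv (nK : ℕ) (C : SM.Cf) (k i : ℕ) : ℕ :=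
  if k = nK then (if i = 0 then C.1 else 0) else C.2 k i

theorem step_val {M : SM} {nQ nK nG : ℕ} (hM : M.Bounded nQ nK nG) {G N h : ℕ} (hG : nQ ≤ G)
    (hG' : nG < G) {C : SM.Cf} (hC : SM.WF nQ nG h C) (hN : h + 1 ≤ N) {L : List Bool}
    {k i s : ℕ}
    (hL : ∀ k' ≤ nK, ∀ s' < G, L.getD (k' * G + s') false = decide (s' = dv nK C k' 0))
    (h0 : L.getD ((nK + 1) * G) false = decide (s = dv nK C k (i - 1)))
    (h1 : L.getD ((nK + 1) * G + 1) false = decide (s = dv nK C k i))
    (h2 : L.getD ((nK + 1) * G + 2) false = decide (s = dv nK C k (min (i + 1) N)))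
    (hi : i ≤ N) :
    nxV M G nK N L k i s = decide (s = dv nK (M.step C) k i) := by
  have hact := hM.act_lt _ hC.st
  have hq : sym G L nK = C.1 := by
    refine sym_eq (by have := hC.st; omega) (fun s' hs' => ?_)
    rw [hL nK le_rfl s' hs', dv, if_pos rfl, if_pos rfl]
  have ho : sym G L (M.act C.1) = C.2 (M.act C.1) 0 := by
    refine sym_eq (by have := hC.sym (M.act C.1) 0; omega) (fun s' hs' => ?_)
    rw [hL _ hact.le s' hs', dv, if_neg (by omega)]
  have hC1 := hC.step hM
  unfold nxV opV
  rw [hq, ho]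
  by_cases hk : k = nK
  · rw [if_pos hk, dv, if_pos hk]
    rfl
  rw [if_neg hk]
  have hstep : dv nK (M.step C) k i = SM.upd (if k = M.act C.1 then M.op C.1 (C.2 (M.act C.1) 0)
      else 0) (C.2 k) i := by
    rw [dv, if_neg hk]
    rfl
  by_cases hiN : i = N
  · rw [if_pos hiN, dv, if_neg hk, hC1.blank k i (by omega)]
  rw [if_neg hiN, hstep, h0, h1, h2, min_eq_left (by omega)]
  simp only [dv, if_neg hk]
  set b := (if k = M.act C.1 then M.op C.1 (C.2 (M.act C.1) 0) else 0) with hb
  unfold SM.upd
  by_cases hb0 : b = 0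
  · rw [if_pos hb0, if_pos hb0]
  rw [if_neg hb0, if_neg hb0]
  by_cases hb1 : b = 1
  · rw [if_pos hb1, if_pos hb1]
  rw [if_neg hb1, if_neg hb1]
  by_cases hi0 : i = 0
  · rw [if_pos hi0, if_pos hi0]
  rw [if_neg hi0, if_neg hi0]

theorem getD_map_range {c i : ℕ} (g : ℕ → Bool) (hi : i < c) :
    ((List.range c).map g).getD i false = g i := by
  rw [List.getD_eq_getElem _ _ (by simpa using hi)]
  simp

theorem ini_val {q0 k0 cf ct nK mm : ℕ} {x r : List Bool} (hr : r.length = mm)
    (k i : ℕ) (b : Bool)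
    (hb : k = k0 ∧ 2 * x.length + 1 ≤ i ∧ i < 2 * x.length + 1 + mm →
      b = r.getD (i - 2 * x.length - 1) false) :
    dv nK (SM.initC q0 k0 ((pairEnc x r).map (SM.bc cf ct))) k i =
      iniV nK q0 k0 cf ct x.length mm (pairEnc x []) b k i := by
  have hlen := length_pairEnc x r
  have hpe : pairEnc x r = pairEnc x [] ++ r := by simp [pairEnc]
  have hlen0 : (pairEnc x []).length = 2 * x.length + 1 := by
    rw [length_pairEnc]; simp
  unfold dv iniV SM.initC
  simp only
  by_cases hk : k = nK
  · rw [if_pos hk, if_pos hk]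
  rw [if_neg hk, if_neg hk]
  by_cases hkk : k = k0
  swap
  · rw [if_neg hkk, if_neg hkk]
  rw [if_pos hkk, if_pos hkk, hpe]
  by_cases h1 : i < 2 * x.length + 1
  · rw [if_pos h1, List.map_append, List.getD_append _ _ _ _ (by simpa [hlen0] using h1),
      List.getD_eq_getElem _ _ (by simpa [hlen0] using h1), List.getElem_map,
      List.getD_eq_getElem _ _ (by simpa [hlen0] using h1)]
  rw [if_neg h1]
  by_cases h2 : i < 2 * x.length + 1 + mm
  · rw [if_pos h2, hb ⟨hkk, by omega, h2⟩, List.map_append,
      List.getD_append_right _ _ _ _ (by simp [hlen0]; omega), List.length_map, hlen0,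
      List.getD_eq_getElem _ _ (by rw [List.length_map]; omega), List.getElem_map,
      List.getD_eq_getElem _ _ (by omega)]
    congr 1
  · rw [if_neg h2, List.getD_eq_default]
    rw [List.length_map, List.length_append, hlen0]
    omega

theorem local_tab {M : SM} {nQ nK nG q0 k0 k1 cf ct acc mm tt G S : ℕ} {x r : List Bool}
    {out : Bool} (hM : M.Bounded nQ nK nG) (hq0 : q0 < nQ) (hk0 : k0 < nK) (hk1 : k1 < nK)
    (hcf : cf ≤ nG) (hct : ct ≤ nG) (hacc : acc ≤ nG) (hG : nQ ≤ G) (hG' : nG < G)
    (hr : r.length = mm)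
    (hS : S = mm + 1 + (tt + 1) * (nK + 1) * (2 * x.length + 1 + mm + tt + 1) * G + 1)
    (hout : (M.step^[tt] (SM.initC q0 k0 ((pairEnc x r).map (SM.bc cf ct)))).2 k1 0 = acc ↔
      out = true) :
    Local ((nK + 1) * G + 3) S
      (fun z => prA G nK k0 k1 acc x.length mm tt S z.2.1 z.2.2)
      (fun z => vlA M G nK q0 k0 cf ct x.length mm tt S (pairEnc x []) z.2.1 z.2.2)
      x r out := by
  set N := 2 * x.length + 1 + mm + tt with hN
  set C0 := SM.initC q0 k0 ((pairEnc x r).map (SM.bc cf ct)) with hC0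
  set C : ℕ → SM.Cf := fun t => M.step^[t] C0 with hC
  have hwf0 : SM.WF nQ nG (2 * x.length + 1 + mm) C0 := by
    have h1 := SM.initC_wf (nQ := nQ) (nG := nG) (k0 := k0) hq0 hcf hct (w := [])
      (by simp) (P := 2 * x.length + 1 + mm) (pairEnc x r) (by rw [length_pairEnc]; omega)
    simpa using h1
  have hwf : ∀ t, SM.WF nQ nG (2 * x.length + 1 + mm + t) (C t) := fun t =>
    SM.iter_wf hM hwf0 t
  have hCs : ∀ t, C (t + 1) = M.step (C t) := fun t => Function.iterate_succ_apply' _ _ _
  set B : ℕ → Bool := fun j => if j = 0 then false else if j < mm + 1 then r.getD (j - 1) false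
    else if j + 1 = S then decide (acc = dv nK (C tt) k1 0)
    else decide (eS G mm j = dv nK (C (eT G nK N mm j)) (eK G nK N mm j) (eI G N mm j)) with hB
  have hidx : ∀ t ≤ tt, ∀ k ≤ nK, ∀ i ≤ N, ∀ s < G, idx G nK N mm t k i s + 1 < S := by
    intro t ht k hk i hi s hs
    have h1 : idx G nK N mm t k i s < mm + 1 + (tt + 1) * (nK + 1) * (N + 1) * G :=
      idx_lt hs hi hk (by omega)
    omega
  have hB1 : ∀ t ≤ tt, ∀ k ≤ nK, ∀ i ≤ N, ∀ s < G,
      B (idx G nK N mm t k i s) = decide (s = dv nK (C t) k i) := by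
    intro t ht k hk i hi s hs
    have h1 := hidx t ht k hk i hi s hs
    have h2 : mm + 1 ≤ idx G nK N mm t k i s := by unfold idx; omega
    simp only [hB]
    rw [if_neg (by omega), if_neg (by omega), if_neg (by omega), eS_idx hs, eT_idx hs hi hk,
      eK_idx hs hi hk, eI_idx hs hi]
  have hG0 : 0 < G := by omega
  refine ⟨by rw [hS, hr]; omega, B, by simp [hB], ?_, ?_, ?_⟩
  · intro j hj
    simp only [hB]
    rw [if_neg (by omega), if_pos (by omega), Nat.add_sub_cancel]
  · intro j hj1 hj2
    rw [hr] at hj1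
    by_cases hjS : j + 1 = S
    · -- the output
      have hp : ∀ i', prA G nK k0 k1 acc x.length mm tt S j i' = idx G nK N mm tt k1 0 acc := by
        intro i'
        unfold prA
        rw [if_pos hjS]
      have h1 := hidx tt le_rfl k1 hk1.le 0 (Nat.zero_le _) acc (by omega)
      refine ⟨fun i' _ => by simp only [hp]; omega, ?_⟩
      have h2 : B j = decide (acc = dv nK (C tt) k1 0) := by
        simp only [hB]
        rw [if_neg (by omega), if_neg (by omega), if_pos hjS]
      rw [h2]
      simp only [vlA]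
      rw [if_pos hjS, getD_map_range _ (by omega), hp,
        hB1 tt le_rfl k1 hk1.le 0 (Nat.zero_le _) acc (by omega)]
    · have hjlt : j < mm + 1 + (tt + 1) * (nK + 1) * (N + 1) * G := by omega
      have ht := eT_lt hj1 hjlt
      have hk : eK G nK N mm j ≤ nK := Nat.le_of_lt_succ (Nat.mod_lt _ (Nat.succ_pos nK))
      have hi : eI G N mm j ≤ N := Nat.le_of_lt_succ (Nat.mod_lt _ (Nat.succ_pos N))
      have hs : eS G mm j < G := Nat.mod_lt _ hG0
      have hje := idx_e (G := G) (nK := nK) (N := N) hj1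
      have hBj : B j = decide (eS G mm j =
          dv nK (C (eT G nK N mm j)) (eK G nK N mm j) (eI G N mm j)) := by
        simp only [hB]
        rw [if_neg (by omega), if_neg (by omega), if_neg hjS]
      by_cases ht0 : eT G nK N mm j = 0
      · -- time 0
        have hp : ∀ i', prA G nK k0 k1 acc x.length mm tt S j i' =
            if eK G nK N mm j = k0 ∧ 2 * x.length + 1 ≤ eI G N mm j ∧
              eI G N mm j < 2 * x.length + 1 + mm then eI G N mm j - 2 * x.length else 0 := by
          intro i'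
          unfold prA
          rw [if_neg hjS, if_pos ht0]
        refine ⟨fun i' _ => ?_, ?_⟩
        · simp only [hp]
          split_ifs with hc
          · omega
          · omega
        · rw [hBj, ht0]
          simp only [vlA]
          rw [if_neg hjS, if_pos ht0, getD_map_range _ (by omega), hp]
          have h1 := ini_val (q0 := q0) (cf := cf) (ct := ct) (nK := nK) hr (eK G nK N mm j)
            (eI G N mm j) (B (if eK G nK N mm j = k0 ∧ 2 * x.length + 1 ≤ eI G N mm j ∧
              eI G N mm j < 2 * x.length + 1 + mm then eI G N mm j - 2 * x.length else 0)) (by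
              intro hc
              rw [if_pos hc]
              simp only [hB]
              rw [if_neg (by omega), if_pos (by omega)])
          have h2 : C 0 = C0 := rfl
          rw [h2, hC0, h1]
      · obtain ⟨t, ht1⟩ : ∃ t, eT G nK N mm j = t + 1 := ⟨eT G nK N mm j - 1, by omega⟩
        set k := eK G nK N mm j with hkdef
        set i := eI G N mm j with hidef
        set s := eS G mm j with hsdef
        have htt : t ≤ tt := by omega
        have hdec : ∀ k' ≤ nK, ∀ s' < G, k' * G + s' < (nK + 1) * G := by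
          intro k' hk' s' hs'
          have h1 : (k' + 1) * G ≤ (nK + 1) * G := Nat.mul_le_mul_right _ (by omega)
          have h2 : (k' + 1) * G = k' * G + G := by ring
          omega
        have hpA : ∀ k' ≤ nK, ∀ s' < G, prA G nK k0 k1 acc x.length mm tt S j (k' * G + s') =
            idx G nK N mm t k' 0 s' := by
          intro k' hk' s' hs'
          unfold prA
          rw [if_neg hjS, if_neg ht0, if_pos (hdec k' hk' s' hs'), div_aux hs', mod_aux hs', ht1,
            Nat.add_sub_cancel]
        have hp0 : prA G nK k0 k1 acc x.length mm tt S j ((nK + 1) * G) =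
            idx G nK N mm t k (i - 1) s := by
          unfold prA
          rw [if_neg hjS, if_neg ht0, if_neg (by omega), if_pos rfl, ht1, Nat.add_sub_cancel]
        have hp1 : prA G nK k0 k1 acc x.length mm tt S j ((nK + 1) * G + 1) =
            idx G nK N mm t k i s := by
          unfold prA
          rw [if_neg hjS, if_neg ht0, if_neg (by omega), if_neg (by omega), if_pos rfl, ht1,
            Nat.add_sub_cancel]
        have hp2 : prA G nK k0 k1 acc x.length mm tt S j ((nK + 1) * G + 2) =
            idx G nK N mm t k (min (i + 1) N) s := by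
          unfold prA
          rw [if_neg hjS, if_neg ht0, if_neg (by omega), if_neg (by omega), if_neg (by omega),
            ht1, Nat.add_sub_cancel]
        have hmin : min (i + 1) N ≤ N := min_le_right _ _
        refine ⟨fun i' hi' => ?_, ?_⟩
        · simp only
          have hlt : ∀ k' ≤ nK, ∀ i'' ≤ N, ∀ s' < G, idx G nK N mm t k' i'' s' < j := by
            intro k' hk' i'' hi'' s' hs'
            rw [← hje, ht1]
            exact idx_lt_idx hs' hi'' hk' (Nat.lt_succ_self t)
          rcases Nat.lt_or_ge i' ((nK + 1) * G) with hlow | hhigh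
          · have h1 := Nat.div_add_mod i' G
            have h2 : i' / G ≤ nK := by
              have : i' / G < nK + 1 := Nat.div_lt_of_lt_mul (by rw [Nat.mul_comm]; exact hlow)
              omega
            have h3 : i' % G < G := Nat.mod_lt _ hG0
            have h4 : i' / G * G + i' % G = i' := by rw [Nat.mul_comm]; exact h1
            have h5 := hpA _ h2 _ h3
            rw [h4] at h5
            rw [h5]
            exact hlt _ h2 _ (Nat.zero_le _) _ h3
          · have h6 : i' = (nK + 1) * G ∨ i' = (nK + 1) * G + 1 ∨ i' = (nK + 1) * G + 2 := by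
              omega
            rcases h6 with h6 | h6 | h6
            · rw [h6, hp0]; exact hlt _ hk _ (by omega) _ hs
            · rw [h6, hp1]; exact hlt _ hk _ hi _ hs
            · rw [h6, hp2]; exact hlt _ hk _ hmin _ hs
        · rw [hBj, ht1, hCs]
          simp only [vlA]
          rw [if_neg hjS, if_neg ht0]
          symm
          refine step_val hM hG hG' (hwf t) (by omega) ?_ ?_ ?_ ?_ hi
          · intro k' hk' s' hs'
            have h1 := hdec k' hk' s' hs'
            rw [getD_map_range _ (by omega), hpA k' hk' s' hs',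
              hB1 t htt k' hk' 0 (Nat.zero_le _) s' hs']
          · rw [getD_map_range _ (by omega), hp0, hB1 t htt k hk (i - 1) (by omega) s hs]
          · rw [getD_map_range _ (by omega), hp1, hB1 t htt k hk i hi s hs]
          · rw [getD_map_range _ (by omega), hp2, hB1 t htt k hk _ hmin s hs]
  · have h1 : B (S - 1) = decide (acc = dv nK (C tt) k1 0) := by
      simp only [hB]
      rw [if_neg (by omega), if_neg (by omega), if_pos (by omega)]
    rw [h1, dv, if_neg (by omega)]
    have h2 : (acc = (C tt).2 k1 0) ↔ out = true := by rw [eq_comm]; exact hout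
    cases out with
    | true => simpa using h2
    | false => simpa using h2

/-- **TAB.** The tableau of a Turing machine as a sequence of local functions. -/
theorem tab : TabStmt := by
  intro f m hf
  obtain ⟨M, nQ, nK, nG, q0, k0, k1, cf, ct, acc, T, hM, hq0, hk0, hk1, hcf, hct, hacc, hrun⟩ :=
    machine f m hf
  set G := nQ + nG + 1 with hG
  set S : Polynomial ℕ := m + 1 + (T + 1) * Polynomial.C (nK + 1) *
    (2 * Polynomial.X + 1 + m + T + 1) * Polynomial.C G + 1 with hS
  have hSe : ∀ n, S.eval n =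
      m.eval n + 1 + (T.eval n + 1) * (nK + 1) * (2 * n + 1 + m.eval n + T.eval n + 1) * G + 1 := by
    intro n
    simp [hS]
  have hpm : PolyTime (fun z : List Bool × ℕ × ℕ => m.eval z.1.length) :=
    PT_eval m (by fun_prop)
  have hpT : PolyTime (fun z : List Bool × ℕ × ℕ => T.eval z.1.length) :=
    PT_eval T (by fun_prop)
  have hpS : PolyTime (fun z : List Bool × ℕ × ℕ => S.eval z.1.length) :=
    PT_eval S (by fun_prop)
  have hvm : PolyTime (fun z : List Bool × ℕ × List Bool => m.eval z.1.length) :=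
    PT_eval m (by fun_prop)
  have hvT : PolyTime (fun z : List Bool × ℕ × List Bool => T.eval z.1.length) :=
    PT_eval T (by fun_prop)
  have hvS : PolyTime (fun z : List Bool × ℕ × List Bool => S.eval z.1.length) :=
    PT_eval S (by fun_prop)
  have hpe : PolyTime (fun z : List Bool × ℕ × List Bool => pairEnc z.1 []) := by
    unfold pairEnc
    fun_prop
  refine ⟨(nK + 1) * G + 3, S,
    fun z => prA G nK k0 k1 acc z.1.length (m.eval z.1.length) (T.eval z.1.length)
      (S.eval z.1.length) z.2.1 z.2.2,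
    fun z => vlA M G nK q0 k0 cf ct z.1.length (m.eval z.1.length) (T.eval z.1.length)
      (S.eval z.1.length) (pairEnc z.1 []) z.2.1 z.2.2,
    PT_prA G nK k0 k1 acc (by fun_prop) hpm hpT hpS (by fun_prop) (by fun_prop),
    PT_vlA M G nK q0 k0 cf ct (by fun_prop) hvm hvT hvS hpe (by fun_prop) (by fun_prop),
    fun x r hr => ?_⟩
  have h1 := local_tab (M := M) (q0 := q0) (k0 := k0) (k1 := k1) (cf := cf) (ct := ct)
    (acc := acc) (mm := m.eval x.length) (tt := T.eval x.length) (G := G)
    (S := S.eval x.length) (x := x) (r := r) (out := f (x, r)) hM hq0 hk0 hk1 hcf hct hacc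
    (by omega) (by omega) hr (hSe _) (hrun x r hr)
  exact h1

end Pool.Agent.Helper60.LM
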